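import Mathlib

/-! Thue's lemma and two representations of primes `p ≡ 19 (mod 24)`. -/

namespace Pool.Agent.Helper56.Fa5

open Finset

/-- Thue's lemma. -/
theorem thue {p : ℕ} (hp : p.Prime) (c : ZMod p) :
    ∃ u v : ℤ, ¬ (u = 0 ∧ v = 0) ∧ (u : ZMod p) = c * v ∧ u ^ 2 < p ∧ v ^ 2 < p := by
  have : Fact p.Prime := ⟨hp⟩
  set s := Nat.sqrt p with hs
  have hs1 : p < (s + 1) * (s + 1) := Nat.lt_succ_sqrt p
  have hs2 : s * s ≤ p := Nat.sqrt_le p
  have hs3 : s * s ≠ p := by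
    intro h
    have h2 : (s * s).Prime := by rw [h]; exact hp
    rcases Nat.prime_mul_iff.mp h2 with ⟨h1, h2⟩ | ⟨h1, h2⟩
    · rw [h2] at h1; exact Nat.not_prime_one h1
    · rw [h2] at h1; exact Nat.not_prime_one h1
  have hs4 : s * s < p := lt_of_le_of_ne hs2 hs3
  let T : Finset (ℕ × ℕ) := (range (s + 1)) ×ˢ (range (s + 1))
  let f : ℕ × ℕ → ZMod p := fun x => (x.1 : ZMod p) - c * (x.2 : ZMod p)
  have hcard : (Finset.univ : Finset (ZMod p)).card < T.card := by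
    rw [Finset.card_univ, ZMod.card, card_product, card_range]
    exact hs1
  obtain ⟨x, hx, y, hy, hxy, hf⟩ := Finset.exists_ne_map_eq_of_card_lt_of_maps_to hcard
    (f := f) (fun a _ => Finset.mem_coe.mpr (Finset.mem_univ _))
  simp only [T, mem_product, mem_range] at hx hy
  have bound : ∀ a b : ℕ, a < s + 1 → b < s + 1 → ((a : ℤ) - b) ^ 2 < p := by
    intro a b ha hb
    have h1 : ((a : ℤ) - b) ^ 2 ≤ s * s := by
      have ha' : (a : ℤ) ≤ s := by exact_mod_cast Nat.lt_succ_iff.mp ha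
      have hb' : (b : ℤ) ≤ s := by exact_mod_cast Nat.lt_succ_iff.mp hb
      have ha0 : (0 : ℤ) ≤ a := Int.natCast_nonneg a
      have hb0 : (0 : ℤ) ≤ b := Int.natCast_nonneg b
      have h2 : ((a : ℤ) - b) ^ 2 ≤ (s : ℤ) ^ 2 := by
        apply sq_le_sq'
        · linarith
        · linarith
      linarith [sq (s : ℤ)]
    calc ((a : ℤ) - b) ^ 2 ≤ s * s := h1
      _ < p := by exact_mod_cast hs4
  refine ⟨(x.1 : ℤ) - y.1, (x.2 : ℤ) - y.2, ?_, ?_, bound _ _ hx.1 hy.1, bound _ _ hx.2 hy.2⟩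
  · rintro ⟨h1, h2⟩
    apply hxy
    ext
    · exact_mod_cast sub_eq_zero.mp h1
    · exact_mod_cast sub_eq_zero.mp h2
  · simp only [f] at hf
    push_cast
    linear_combination hf

/-- From a residue relation to a divisibility. -/
lemma dvd_of_rel {p : ℕ} {c : ZMod p} {u v d : ℤ} (hc : c ^ 2 = (d : ZMod p))
    (h : (u : ZMod p) = c * v) : (p : ℤ) ∣ u ^ 2 - d * v ^ 2 := by
  rw [← ZMod.intCast_zmod_eq_zero_iff_dvd]
  push_cast
  rw [h, ← hc]
  ring

/-- `p = (4x)^2 + 3y^2` for primes `p ≡ 19 (mod 24)`. -/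
theorem rep_three {p : ℕ} (hp : p.Prime) (h24 : p % 24 = 19) (c : ZMod p) (hc : c ^ 2 = -3) :
    ∃ x y : ℤ, (p : ℤ) = (4 * x) ^ 2 + 3 * y ^ 2 := by
  obtain ⟨u, v, h0, huv, hu, hv⟩ := thue hp c
  obtain ⟨k, hk⟩ := dvd_of_rel (d := -3) (by rw [hc]; norm_num) huv
  have hp0 : (0 : ℤ) < p := by exact_mod_cast hp.pos
  have hpos : 0 < u ^ 2 + 3 * v ^ 2 := by
    rcases not_and_or.mp h0 with h | h
    · positivity
    · positivity
  have hk1 : 0 < k := by
    have : 0 < (p : ℤ) * k := by linarith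
    exact pos_of_mul_pos_right this hp0.le
  have hk2 : k < 4 := by
    have : (p : ℤ) * k < p * 4 := by linarith
    exact lt_of_mul_lt_mul_left this hp0.le
  -- a representation `p = A^2 + 3 B^2`
  have hrep : ∃ A B : ℤ, (p : ℤ) = A ^ 2 + 3 * B ^ 2 := by
    interval_cases k
    · exact ⟨u, v, by linarith⟩
    · exfalso
      have h8 : (p : ℤ) % 8 = 3 := by omega
      have h1 : u ^ 2 + 3 * v ^ 2 = 2 * p := by linarith
      have h2 : (u ^ 2 + 3 * v ^ 2) % 8 = 6 := by omega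
      rcases Int.even_or_odd' u with ⟨a, rfl | rfl⟩ <;> rcases Int.even_or_odd' v with ⟨b, rfl | rfl⟩ <;>
      · ring_nf at h2
        rcases Int.even_or_odd' a with ⟨a', rfl | rfl⟩ <;> rcases Int.even_or_odd' b with ⟨b', rfl | rfl⟩ <;>
        · ring_nf at h2
          omega
    · have h3 : (3 : ℤ) ∣ u ^ 2 := ⟨p - v ^ 2, by linarith⟩
      have h3' : (3 : ℤ) ∣ u := Int.prime_three.dvd_of_dvd_pow h3
      obtain ⟨w, rfl⟩ := h3'
      exact ⟨v, w, by linarith⟩
  obtain ⟨A, B, hAB⟩ := hrep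
  have h8 : (A ^ 2 + 3 * B ^ 2) % 8 = 3 := by omega
  have h4 : (4 : ℤ) ∣ A := by
    have hA := Int.emod_emod_of_dvd A (show (8 : ℤ) ∣ 8 from dvd_refl 8)
    have key : A % 4 = 0 := by
      have e1 : (A ^ 2 + 3 * B ^ 2) % 8 = ((A % 8) ^ 2 + 3 * (B % 8) ^ 2) % 8 := by
        simp [Int.add_emod, Int.mul_emod, pow_two]
      rw [e1] at h8
      have a1 : 0 ≤ A % 8 := Int.emod_nonneg _ (by norm_num)
      have a2 : A % 8 < 8 := Int.emod_lt_of_pos _ (by norm_num)
      have b1 : 0 ≤ B % 8 := Int.emod_nonneg _ (by norm_num)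
      have b2 : B % 8 < 8 := Int.emod_lt_of_pos _ (by norm_num)
      have e2 : A % 4 = (A % 8) % 4 := by omega
      rw [e2]
      generalize A % 8 = a at *
      generalize B % 8 = b at *
      interval_cases a <;> interval_cases b <;> simp_all
    exact Int.dvd_of_emod_eq_zero key
  obtain ⟨x, rfl⟩ := h4
  exact ⟨x, B, hAB⟩

/-- `p = a^2 - 6 b^2` for primes `p ≡ 19 (mod 24)`. -/
theorem rep_six {p : ℕ} (hp : p.Prime) (h24 : p % 24 = 19) (c : ZMod p) (hc : c ^ 2 = 6) :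
    ∃ a b : ℤ, (p : ℤ) = a ^ 2 - 6 * b ^ 2 := by
  obtain ⟨u, v, h0, huv, hu, hv⟩ := thue hp c
  obtain ⟨k, hk⟩ := dvd_of_rel (d := 6) (by rw [hc]; norm_num) huv
  have hp0 : (0 : ℤ) < p := by exact_mod_cast hp.pos
  have hk1 : -6 < k := by
    have : (p : ℤ) * (-6) < p * k := by nlinarith [sq_nonneg u]
    exact lt_of_mul_lt_mul_left this hp0.le
  have hk2 : k < 1 := by
    have : (p : ℤ) * k < p * 1 := by nlinarith [sq_nonneg v]
    exact lt_of_mul_lt_mul_left this hp0.le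
  have hp3 : (p : ℤ) % 3 = 1 := by omega
  have hsq3 : ∀ w : ℤ, w ^ 2 % 3 = 0 ∨ w ^ 2 % 3 = 1 := by
    intro w
    have e1 : w ^ 2 % 3 = (w % 3) ^ 2 % 3 := by simp [pow_two, Int.mul_emod]
    have a1 : 0 ≤ w % 3 := Int.emod_nonneg _ (by norm_num)
    have a2 : w % 3 < 3 := Int.emod_lt_of_pos _ (by norm_num)
    rw [e1]
    generalize w % 3 = a at *
    interval_cases a <;> simp
  interval_cases k
  · -- k = -5
    have hk' : u ^ 2 - 6 * v ^ 2 = -5 * p := by linarith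
    have h5 : (5 : ℤ) ∣ (u - v) * (u + v) := ⟨v ^ 2 - p, by linarith⟩
    rcases Int.Prime.dvd_mul' (by norm_num : Nat.Prime 5) (by exact_mod_cast h5) with h | h
    · obtain ⟨w, hw⟩ := h
      have : u = v + 5 * w := by push_cast at hw; linarith
      subst this
      refine ⟨v - w, w, ?_⟩
      nlinarith
    · obtain ⟨w, hw⟩ := h
      have : u = -v + 5 * w := by push_cast at hw; linarith
      subst this
      refine ⟨-v - w, w, ?_⟩
      nlinarith
  · -- k = -4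
    exfalso
    have := hsq3 u
    omega
  · -- k = -3
    exfalso
    have hk' : u ^ 2 - 6 * v ^ 2 = -3 * p := by linarith
    have h3 : (3 : ℤ) ∣ u ^ 2 := ⟨2 * v ^ 2 - p, by linarith⟩
    have h3' : (3 : ℤ) ∣ u := Int.prime_three.dvd_of_dvd_pow h3
    obtain ⟨w, rfl⟩ := h3'
    have h4 : (p : ℤ) = 2 * v ^ 2 - 3 * w ^ 2 := by nlinarith
    have := hsq3 v
    omega
  · -- k = -2
    have hk' : u ^ 2 - 6 * v ^ 2 = -2 * p := by linarith
    have h2 : (2 : ℤ) ∣ u ^ 2 := ⟨3 * v ^ 2 - p, by linarith⟩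
    have h2' : (2 : ℤ) ∣ u := Int.prime_two.dvd_of_dvd_pow h2
    obtain ⟨w, rfl⟩ := h2'
    exact ⟨3 * v - 2 * w, w - v, by nlinarith⟩
  · -- k = -1
    exfalso
    have := hsq3 u
    omega
  · -- k = 0
    exfalso
    have hk' : u ^ 2 = 6 * v ^ 2 := by linarith
    have hv0 : v ≠ 0 := by
      rintro rfl
      apply h0
      constructor
      · have : u ^ 2 = 0 := by linarith
        exact pow_eq_zero_iff (two_ne_zero) |>.mp this
      · rfl
    have h6 : IsSquare (6 : ℚ) := by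
      refine ⟨u / v, ?_⟩
      have hvq : (v : ℚ) ≠ 0 := by exact_mod_cast hv0
      field_simp
      have : (u : ℚ) ^ 2 = 6 * v ^ 2 := by exact_mod_cast hk'
      linarith
    have h6' : ¬ IsSquare (6 : ℚ) := by
      rw [show (6 : ℚ) = ((6 : ℕ) : ℚ) by norm_num, Rat.isSquare_natCast_iff]
      rintro ⟨r, hr⟩
      have : r < 3 := by nlinarith
      interval_cases r <;> omega
    exact h6' h6

end Pool.Agent.Helper56.Fa5
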