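import Mathlib
import Pool.Agent.Helper56.Fa5.Thue

/-! Jacobi symbol computations. -/

namespace Pool.Agent.Helper56.Fa5

open Finset
open scoped NumberTheorySymbols

lemma jac_neg_two_of_dvd {m : ℕ} {y b : ℤ} (hm : Odd m) (hd : (m : ℤ) ∣ y ^ 2 + 2 * b ^ 2)
    (hc : IsCoprime y b) : J(-2 | m) = 1 := by
  have hm0 : NeZero m := ⟨by rintro rfl; simp at hm⟩
  have hbm : IsCoprime b (m : ℤ) := by
    obtain ⟨k, hk⟩ := hd
    have h1 : IsCoprime b (y ^ 2) := (hc.symm).pow_right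
    have h2 : IsCoprime b (m * k : ℤ) := by
      rw [← hk]
      have : y ^ 2 + 2 * b ^ 2 = y ^ 2 + b * (2 * b) := by ring
      rw [this]
      exact h1.add_mul_left_right _
    exact h2.of_mul_right_left
  have hodd : IsCoprime (-2 : ℤ) (m : ℤ) := by
    obtain ⟨k, hk⟩ := hm
    exact ⟨k, 1, by rw [hk]; push_cast; ring⟩
  have hprod : J(-2 * b ^ 2 | m) = J(y ^ 2 | m) := by
    apply jacobiSym.mod_left'
    apply Int.ModEq.symm
    rw [Int.modEq_iff_dvd]
    have : -2 * b ^ 2 - y ^ 2 = -(y ^ 2 + 2 * b ^ 2) := by ring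
    rw [this]
    exact hd.neg_right
  have hym : IsCoprime y (m : ℤ) := by
    have h1 : IsCoprime (-2 * b ^ 2 : ℤ) (m : ℤ) := hodd.mul_left hbm.pow_left
    have h2 : IsCoprime (y ^ 2 : ℤ) (m : ℤ) := by
      obtain ⟨k, hk⟩ := hd
      have : y ^ 2 = -2 * b ^ 2 + (m : ℤ) * k := by linarith
      rw [this]
      exact h1.add_mul_left_left _
    exact (IsCoprime.pow_left_iff (by norm_num)).mp h2
  rw [jacobiSym.mul_left, jacobiSym.sq_one' (Int.isCoprime_iff_gcd_eq_one.mp hbm),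
    jacobiSym.sq_one' (Int.isCoprime_iff_gcd_eq_one.mp hym), mul_one] at hprod
  exact hprod

theorem desc : ∀ (n : ℕ) (m m' : ℕ) (y b : ℤ), b.natAbs ≤ n → b ≠ 0 → Odd m →
    (m : ℤ) * m' = 3 * (y ^ 2 + 2 * b ^ 2) →
    (∀ l : ℕ, l.Prime → l ∣ m → l ∣ m' → ¬ ((l : ℤ) ∣ b)) → J(-2 | m) = 1 := by
  intro n
  induction n with
  | zero =>
    intro m m' y b hb hb0
    exact absurd (Int.natAbs_eq_zero.mp (Nat.le_zero.mp hb)) hb0
  | succ n ih =>
    intro m m' y b hb hb0 hm hmm hl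
    by_cases hc : IsCoprime y b
    · -- coprime case
      have h3 : 3 ∣ m * m' := by
        have : (3 : ℤ) ∣ ((m * m' : ℕ) : ℤ) := ⟨y ^ 2 + 2 * b ^ 2, by push_cast; exact hmm⟩
        exact_mod_cast this
      rcases (Nat.Prime.dvd_mul Nat.prime_three).mp h3 with ⟨k, hk⟩ | ⟨k, hk⟩
      · have hk0 : k ≠ 0 := by
          rintro rfl
          rw [hk] at hm
          simp at hm
        have hkodd : Odd k := by
          rw [hk] at hm
          exact (Nat.odd_mul.mp hm).2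
        have h1 : J(-2 | k) = 1 := by
          apply jac_neg_two_of_dvd hkodd (y := y) (b := b) _ hc
          refine ⟨m', ?_⟩
          have : (3 : ℤ) * (k * m') = 3 * (y ^ 2 + 2 * b ^ 2) := by
            rw [← hmm, hk]; push_cast; ring
          linarith
        rw [hk, jacobiSym.mul_right' _ (by norm_num) hk0, h1]
        norm_num
      · apply jac_neg_two_of_dvd hm (y := y) (b := b) _ hc
        refine ⟨k, ?_⟩
        have : (3 : ℤ) * (m * k) = 3 * (y ^ 2 + 2 * b ^ 2) := by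
          rw [← hmm, hk]; push_cast; ring
        linarith
    · -- common prime factor
      rw [Int.isCoprime_iff_gcd_eq_one] at hc
      obtain ⟨l, hlp, hld⟩ := Nat.exists_prime_and_dvd hc
      have hly : (l : ℤ) ∣ y := (Int.natCast_dvd_natCast.mpr hld).trans (Int.gcd_dvd_left ..)
      have hlb : (l : ℤ) ∣ b := (Int.natCast_dvd_natCast.mpr hld).trans (Int.gcd_dvd_right ..)
      obtain ⟨Y, rfl⟩ := hly
      obtain ⟨B, rfl⟩ := hlb
      have hl0 : (l : ℤ) ≠ 0 := by exact_mod_cast hlp.ne_zero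
      have hB0 : B ≠ 0 := by
        rintro rfl
        simp at hb0
      have hBn : B.natAbs ≤ n := by
        rw [Int.natAbs_mul, Int.natAbs_natCast] at hb
        have h2 := hlp.two_le
        have h3 : 0 < B.natAbs := Int.natAbs_pos.mpr hB0
        nlinarith
      have hsq : l ^ 2 ∣ m * m' := by
        have : ((l ^ 2 : ℕ) : ℤ) ∣ ((m * m' : ℕ) : ℤ) := by
          refine ⟨3 * (Y ^ 2 + 2 * B ^ 2), ?_⟩
          push_cast
          rw [hmm]
          ring
        exact_mod_cast this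
      by_cases hlm : l ∣ m
      · have hlm' : ¬ l ∣ m' := fun h => hl l hlp hlm h ⟨B, rfl⟩
        have hcop : Nat.Coprime (l ^ 2) m' := Nat.Coprime.pow_left 2 ((Nat.Prime.coprime_iff_not_dvd hlp).mpr hlm')
        obtain ⟨k, rfl⟩ := hcop.dvd_of_dvd_mul_right hsq
        have hkodd : Odd k := (Nat.odd_mul.mp hm).2
        have hlodd : Odd l := Nat.Odd.of_mul_left (by
          have := (Nat.odd_mul.mp hm).1
          rwa [pow_two] at this)
        have hk0 : k ≠ 0 := by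
          rintro rfl
          simp at hkodd
        have h1 : J(-2 | k) = 1 := by
          apply ih k m' Y B hBn hB0 hkodd
          · have : (l : ℤ) ^ 2 * (k * m') = l ^ 2 * (3 * (Y ^ 2 + 2 * B ^ 2)) := by
              have := hmm
              push_cast at this
              linarith
            exact mul_left_cancel₀ (pow_ne_zero 2 hl0) this
          · intro q hq hqk hqm hqB
            exact hl q hq (hqk.mul_left _) hqm (hqB.mul_left _)
        rw [jacobiSym.mul_right' _ (pow_ne_zero 2 hlp.ne_zero) hk0, h1, jacobiSym.pow_right,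
          jacobiSym.sq_one, mul_one]
        obtain ⟨t, ht⟩ := hlodd
        apply Int.isCoprime_iff_gcd_eq_one.mp
        exact ⟨t, 1, by rw [ht]; push_cast; ring⟩
      · have hcop : Nat.Coprime (l ^ 2) m := Nat.Coprime.pow_left 2 ((Nat.Prime.coprime_iff_not_dvd hlp).mpr hlm)
        obtain ⟨k, rfl⟩ := hcop.dvd_of_dvd_mul_left hsq
        apply ih m k Y B hBn hB0 hm
        · have : (l : ℤ) ^ 2 * (m * k) = l ^ 2 * (3 * (Y ^ 2 + 2 * B ^ 2)) := by
            have := hmm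
            push_cast at this
            linarith
          exact mul_left_cancel₀ (pow_ne_zero 2 hl0) this
        · intro q hq hqm hqk hqB
          exact hl q hq hqm (hqk.mul_left _) (hqB.mul_left _)

/-- reciprocity for `p ≡ 3 (mod 4)`. -/
lemma recip {p m : ℕ} (hp : p % 4 = 3) (hm : Odd m) : J(m | p) = J(-p | m) := by
  have hpo : Odd p := Nat.odd_iff.mpr (by omega)
  rw [jacobiSym.neg _ hm]
  rcases Nat.odd_mod_four_iff.mp (Nat.odd_iff.mp hm) with h | h
  · rw [jacobiSym.quadratic_reciprocity_one_mod_four h hpo, ZMod.χ₄_nat_one_mod_four h, one_mul]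
  · rw [jacobiSym.quadratic_reciprocity_three_mod_four h hp, ZMod.χ₄_nat_three_mod_four h]
    ring

lemma odd_ab {p : ℕ} (h24 : p % 24 = 19) {a b : ℤ} (hab : (p : ℤ) = a ^ 2 - 6 * b ^ 2) :
    a % 2 = 1 ∧ b % 2 = 1 := by
  have h8 : (a ^ 2 - 6 * b ^ 2) % 8 = 3 := by omega
  have e1 : (a ^ 2 - 6 * b ^ 2) % 8 = ((a % 8) ^ 2 - 6 * (b % 8) ^ 2) % 8 := by
    simp [Int.sub_emod, Int.mul_emod, pow_two]
  rw [e1] at h8
  have a1 : 0 ≤ a % 8 := Int.emod_nonneg _ (by norm_num)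
  have a2 : a % 8 < 8 := Int.emod_lt_of_pos _ (by norm_num)
  have b1 : 0 ≤ b % 8 := Int.emod_nonneg _ (by norm_num)
  have b2 : b % 8 < 8 := Int.emod_lt_of_pos _ (by norm_num)
  have e2 : a % 2 = (a % 8) % 2 := by omega
  have e3 : b % 2 = (b % 8) % 2 := by omega
  rw [e2, e3]
  generalize a % 8 = a at *
  generalize b % 8 = b at *
  interval_cases a <;> interval_cases b <;> simp_all

lemma coprime_ab {p : ℕ} (hp : p.Prime) {a b : ℤ} (hab : (p : ℤ) = a ^ 2 - 6 * b ^ 2) :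
    IsCoprime a b := by
  rw [Int.isCoprime_iff_gcd_eq_one]
  by_contra hc
  obtain ⟨l, hlp, hld⟩ := Nat.exists_prime_and_dvd hc
  have hla : (l : ℤ) ∣ a := (Int.natCast_dvd_natCast.mpr hld).trans (Int.gcd_dvd_left ..)
  have hlb : (l : ℤ) ∣ b := (Int.natCast_dvd_natCast.mpr hld).trans (Int.gcd_dvd_right ..)
  obtain ⟨A, rfl⟩ := hla
  obtain ⟨B, rfl⟩ := hlb
  have h1 : ((l * l : ℕ) : ℤ) ∣ ((p : ℕ) : ℤ) := ⟨A ^ 2 - 6 * B ^ 2, by rw [hab]; push_cast; ring⟩
  have h2 : l * l ∣ p := by exact_mod_cast h1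
  have h3 := hp.squarefree l h2
  exact hlp.one_lt.ne' (Nat.isUnit_iff.mp h3)

/-- value at `b > 0` -/
lemma jac_b {p : ℕ} (hp : p.Prime) (h24 : p % 24 = 19) {a : ℤ} {β : ℕ}
    (hab : (p : ℤ) = a ^ 2 - 6 * (β : ℤ) ^ 2) : J((β : ℤ) | p) = J(-1 | β) := by
  have hodd := odd_ab h24 hab
  have hβ : Odd β := Nat.odd_iff.mpr (by omega)
  rw [recip (by omega) hβ]
  have hc := coprime_ab hp hab
  have h1 : J(-(p : ℤ) | β) = J(-1 * a ^ 2 | β) := by
    apply jacobiSym.mod_left'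
    apply Int.ModEq.symm
    rw [Int.modEq_iff_dvd]
    exact ⟨6 * β, by rw [hab]; ring⟩
  rw [h1, jacobiSym.mul_left, jacobiSym.sq_one' (Int.isCoprime_iff_gcd_eq_one.mp hc), mul_one]

/-- value of `w = a - 2b` (with `b` of any sign) -/
lemma jac_w {p : ℕ} (hp : p.Prime) (h24 : p % 24 = 19) {a b : ℤ} {w : ℕ}
    (hab : (p : ℤ) = a ^ 2 - 6 * b ^ 2) (hw : (w : ℤ) = a - 2 * b) : J((w : ℤ) | p) = J(2 | w) := by
  have hodd := odd_ab h24 hab
  have hwo : Odd w := Nat.odd_iff.mpr (by omega)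
  rw [recip (by omega) hwo]
  have hc := coprime_ab hp hab
  have hcw : IsCoprime b (w : ℤ) := by
    rw [hw]
    have : a - 2 * b = a + b * (-2) := by ring
    rw [this]
    exact hc.symm.add_mul_left_right _
  have h1 : J(-(p : ℤ) | w) = J(2 * b ^ 2 | w) := by
    apply jacobiSym.mod_left'
    apply Int.ModEq.symm
    rw [Int.modEq_iff_dvd]
    refine ⟨-(w + 4 * b), ?_⟩
    rw [hab, hw]
    ring
  rw [h1, jacobiSym.mul_left, jacobiSym.sq_one' (Int.isCoprime_iff_gcd_eq_one.mp hcw), mul_one]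

lemma leg_a {p : ℕ} (hp : p.Prime) (h24 : p % 24 = 19) {α : ℕ} {b : ℤ}
    (hab : (p : ℤ) = (α : ℤ) ^ 2 - 6 * b ^ 2) :
    J(((α : ℤ) - 2 * b) * b | p) = J(-2 | α) := by
  have hodd := odd_ab h24 hab
  have hpos : 0 < (α : ℤ) - 2 * b := by
    have hp0 : (0 : ℤ) < p := by exact_mod_cast hp.pos
    have hα0 : (0 : ℤ) ≤ α := Int.natCast_nonneg α
    by_contra h
    push Not at h
    nlinarith
  obtain ⟨w, hw⟩ := Int.eq_ofNat_of_zero_le hpos.le
  have hw' : (w : ℤ) = α - 2 * b := hw.symm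
  have hwo : Odd w := Nat.odd_iff.mpr (by omega)
  have hαo : Odd α := Nat.odd_iff.mpr (by omega)
  rw [jacobiSym.mul_left, hw, jac_w hp h24 hab hw', jacobiSym.at_neg_two hαo, jacobiSym.at_two hwo]
  have hb0 : b ≠ 0 := by
    rintro rfl
    simp at hodd
  rcases lt_or_gt_of_ne hb0 with hb | hb
  · obtain ⟨β, hβ⟩ := Int.eq_ofNat_of_zero_le (show 0 ≤ -b by omega)
    have hβ' : b = -(β : ℤ) := by omega
    subst hβ'
    have hβo : Odd β := Nat.odd_iff.mpr (by omega)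
    have hpo : Odd p := Nat.odd_iff.mpr (by omega)
    rw [jacobiSym.neg _ hpo, jac_b hp h24 (a := α) (by rw [hab]; ring), jacobiSym.at_neg_one hβo,
      ZMod.χ₄_nat_three_mod_four (show p % 4 = 3 by omega)]
    rw [ZMod.χ₈_nat_eq_if_mod_eight, ZMod.χ₄_nat_eq_if_mod_four, ZMod.χ₈'_nat_eq_if_mod_eight]
    have h1 : w = α + 2 * β := by omega
    have h2 := Nat.odd_iff.mp hβo
    have h3 := Nat.odd_iff.mp hαo
    have h4 : w % 8 = (α % 8 + 2 * (β % 8)) % 8 := by omega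
    have h5 : w % 2 = 1 := by omega
    have h6 : β % 4 = (β % 8) % 4 := by omega
    rw [h4, h5, h2, h3, h6]
    have h7 : α % 8 < 8 := Nat.mod_lt _ (by norm_num)
    have h8 : β % 8 < 8 := Nat.mod_lt _ (by norm_num)
    have h9 : (α % 8) % 2 = 1 := by omega
    have h10 : (β % 8) % 2 = 1 := by omega
    clear * - h7 h8 h9 h10
    generalize α % 8 = x at *
    generalize β % 8 = z at *
    interval_cases x <;> interval_cases z <;> simp_all
  · obtain ⟨β, rfl⟩ := Int.eq_ofNat_of_zero_le hb.le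
    have hβo : Odd β := Nat.odd_iff.mpr (by omega)
    rw [jac_b hp h24 hab, jacobiSym.at_neg_one hβo]
    rw [ZMod.χ₈_nat_eq_if_mod_eight, ZMod.χ₄_nat_eq_if_mod_four, ZMod.χ₈'_nat_eq_if_mod_eight]
    have h1 : w + 2 * β = α := by omega
    have h2 := Nat.odd_iff.mp hβo
    have h3 := Nat.odd_iff.mp hαo
    have h4 : w % 8 = (α % 8 + 6 * (β % 8)) % 8 := by omega
    have h5 : w % 2 = 1 := by omega
    have h6 : β % 4 = (β % 8) % 4 := by omega
    rw [h4, h5, h2, h3, h6]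
    have h7 : α % 8 < 8 := Nat.mod_lt _ (by norm_num)
    have h8 : β % 8 < 8 := Nat.mod_lt _ (by norm_num)
    have h9 : (α % 8) % 2 = 1 := by omega
    have h10 : (β % 8) % 2 = 1 := by omega
    clear * - h7 h8 h9 h10
    generalize α % 8 = x at *
    generalize β % 8 = z at *
    interval_cases x <;> interval_cases z <;> simp_all

lemma jac_sign {p : ℕ} (hp : p.Prime) (h24 : p % 24 = 19) {α : ℕ} {b x y : ℤ}
    (hab : (p : ℤ) = (α : ℤ) ^ 2 - 6 * b ^ 2) (hxy : (p : ℤ) = (4 * x) ^ 2 + 3 * y ^ 2) :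
    J(-2 | α) = (-1) ^ x.natAbs := by
  have hodd := odd_ab h24 hab
  have hαo : Odd α := Nat.odd_iff.mpr (by omega)
  have hb0 : b ≠ 0 := by
    rintro rfl
    simp at hodd
  have hα0 : (0 : ℤ) < α := by omega
  have hlt : (4 * x) ^ 2 < (α : ℤ) ^ 2 := by
    have h1 : 0 < b ^ 2 := by positivity
    nlinarith [sq_nonneg y]
  have habs := abs_lt_of_sq_lt_sq hlt hα0.le
  rw [abs_lt] at habs
  obtain ⟨m, hm⟩ := Int.eq_ofNat_of_zero_le (show 0 ≤ (α : ℤ) + 4 * x by linarith)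
  obtain ⟨m', hm'⟩ := Int.eq_ofNat_of_zero_le (show 0 ≤ (α : ℤ) - 4 * x by linarith)
  have hmo : Odd m := Nat.odd_iff.mpr (by omega)
  have hJ : J(-2 | m) = 1 := by
    refine desc b.natAbs m m' y b le_rfl hb0 hmo ?_ ?_
    · rw [← hm, ← hm']
      linarith
    · intro l hl hlm hlm' hlb
      have hl2 : ¬ 2 ∣ l := by
        intro h
        have h2 : 2 ∣ m := h.trans hlm
        rw [Nat.odd_iff] at hmo
        omega
      have h1 : (l : ℤ) ∣ 2 * α := by
        have := dvd_add (Int.natCast_dvd_natCast.mpr hlm) (Int.natCast_dvd_natCast.mpr hlm')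
        rw [show ((m : ℕ) : ℤ) = (α : ℤ) + 4 * x from hm.symm,
          show ((m' : ℕ) : ℤ) = (α : ℤ) - 4 * x from hm'.symm] at this
        have e : (α : ℤ) + 4 * x + (α - 4 * x) = 2 * α := by ring
        rwa [e] at this
      have h2 : IsCoprime (l : ℤ) 2 := by
        rw [Int.isCoprime_iff_gcd_eq_one]
        have : Nat.Coprime l 2 := ((Nat.Prime.coprime_iff_not_dvd Nat.prime_two).mpr hl2).symm
        exact this
      have h3 : (l : ℤ) ∣ α := h2.dvd_of_dvd_mul_left h1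
      have h4 := coprime_ab hp hab
      have h5 := h4.isUnit_of_dvd' h3 hlb
      rw [Int.isUnit_iff] at h5
      have := hl.one_lt
      omega
  rw [jacobiSym.at_neg_two hmo, ZMod.χ₈'_nat_eq_if_mod_eight] at hJ
  rw [jacobiSym.at_neg_two hαo, ZMod.χ₈'_nat_eq_if_mod_eight]
  have h2 := Nat.odd_iff.mp hmo
  have h3 := Nat.odd_iff.mp hαo
  rw [h2] at hJ
  rw [h3]
  simp only [one_ne_zero, if_false] at hJ ⊢
  have hJ' : m % 8 = 1 ∨ m % 8 = 3 := by
    by_contra h
    rw [if_neg h] at hJ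
    norm_num at hJ
  rcases Int.even_or_odd' x with ⟨c, hc | hc⟩
  · have he : Even x.natAbs := Int.natAbs_even.mpr ⟨c, by omega⟩
    rw [he.neg_one_pow, if_pos (by omega)]
  · have he : Odd x.natAbs := Int.natAbs_odd.mpr ⟨c, by omega⟩
    rw [he.neg_one_pow, if_neg (by omega)]

/-- The sign lemma: for `r^2 = 6` in `ZMod p`, `(r - 2)^((p-1)/2) = (-1)^x`. -/
theorem sign_lemma {p : ℕ} [hpf : Fact p.Prime] (h24 : p % 24 = 19) {x y : ℤ}
    (hxy : (p : ℤ) = (4 * x) ^ 2 + 3 * y ^ 2) (r : ZMod p) (hr : r ^ 2 = 6) :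
    (r - 2) ^ (p / 2) = (-1) ^ x.natAbs := by
  have hp := hpf.out
  obtain ⟨a, b, hab⟩ := rep_six hp h24 r hr
  -- make `a` nonnegative
  obtain ⟨α, hα⟩ : ∃ α : ℕ, (p : ℤ) = (α : ℤ) ^ 2 - 6 * b ^ 2 :=
    ⟨a.natAbs, by rw [Int.natAbs_sq]; exact hab⟩
  have hodd := odd_ab h24 hα
  -- in ZMod p
  have h1 : ((α : ℤ) : ZMod p) ^ 2 = r ^ 2 * (b : ZMod p) ^ 2 := by
    have : (((p : ℤ)) : ZMod p) = 0 := by simp
    rw [hα] at this
    push_cast at this ⊢
    rw [hr]
    linear_combination this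
  obtain ⟨b', hb', hrb⟩ : ∃ b' : ℤ, (p : ℤ) = (α : ℤ) ^ 2 - 6 * b' ^ 2 ∧
      ((α : ℤ) : ZMod p) = r * (b' : ZMod p) := by
    have h2 : ((α : ℤ) : ZMod p) ^ 2 = (r * (b : ZMod p)) ^ 2 := by rw [h1]; ring
    rcases sq_eq_sq_iff_eq_or_eq_neg.mp h2 with h | h
    · exact ⟨b, hα, h⟩
    · exact ⟨-b, by rw [hα]; ring, by rw [h]; push_cast; ring⟩
  have hodd' := odd_ab h24 hb'
  have hbz : (b' : ZMod p) ≠ 0 := by
    intro h0
    rw [h0, mul_zero] at hrb
    have h3 := (ZMod.intCast_zmod_eq_zero_iff_dvd _ _).mp h0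
    have h4 := (ZMod.intCast_zmod_eq_zero_iff_dvd _ _).mp hrb
    have h5 := (coprime_ab hp hb').isUnit_of_dvd' h4 h3
    rw [Int.isUnit_iff] at h5
    have := hp.one_lt
    omega
  have hleg := leg_a hp h24 hb'
  rw [jac_sign hp h24 hb' hxy, ← jacobiSym.legendreSym.to_jacobiSym] at hleg
  have hpow := legendreSym.eq_pow p (((α : ℤ) - 2 * b') * b')
  rw [hleg] at hpow
  have h6 : ((((α : ℤ) - 2 * b') * b' : ℤ) : ZMod p) = (r - 2) * (b' : ZMod p) ^ 2 := by
    push_cast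
    push_cast at hrb
    rw [hrb]
    ring
  rw [h6, mul_pow, ← pow_mul] at hpow
  have h7 : 2 * (p / 2) = p - 1 := by omega
  rw [h7, ZMod.pow_card_sub_one_eq_one hbz, mul_one] at hpow
  rw [← hpow]
  push_cast
  rfl

end Pool.Agent.Helper56.Fa5
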