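import Mathlib
import Pool.Agent.Helper56.Fa5.Jac

/-! The computation of `(z-1)^((p-1)/2)` in characteristic `p`. -/

namespace Pool.Agent.Helper56.Fa5

open scoped NumberTheorySymbols

/-- `-2` is a square mod `p`. -/
lemma sqrt_neg_two {p : ℕ} [hpf : Fact p.Prime] (h24 : p % 24 = 19) : ∃ s : ZMod p, s ^ 2 = -2 := by
  have h1 : IsSquare (-2 : ZMod p) := (ZMod.exists_sq_eq_neg_two_iff (by omega)).mpr (by omega)
  obtain ⟨s, hs⟩ := h1
  exact ⟨s, by rw [hs]; ring⟩

lemma leg_two {p : ℕ} [hpf : Fact p.Prime] (h24 : p % 24 = 19) : (2 : ZMod p) ^ (p / 2) = -1 := by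
  have h1 := legendreSym.eq_pow p 2
  rw [legendreSym.at_two (by omega), ZMod.χ₈_nat_eq_if_mod_eight] at h1
  rw [if_neg (by omega), if_neg (by omega)] at h1
  push_cast at h1
  exact h1.symm

variable {k : Type*} [Field k] {p : ℕ} [hpf : Fact p.Prime] [CharP k p]

/-- main computation in characteristic `p` -/
theorem char_p_value (h24 : p % 24 = 19) {x y : ℤ}
    (hxy : (p : ℤ) = (4 * x) ^ 2 + 3 * y ^ 2) (z : k) (hz : z ^ 4 - z ^ 2 + 1 = 0) :
    2 * (z - 1) ^ (p / 2) =
      (-1) ^ ((p - 19) / 24 + x.natAbs) * ((1 + z ^ 3) * (1 + (z + z ^ 11))) := by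
  have hp := hpf.out
  obtain ⟨φ⟩ : Nonempty (ZMod p →+* k) := ⟨ZMod.castHom (dvd_refl p) k⟩
  have hφ2' : φ 2 = 2 := map_ofNat φ 2
  have hφ6' : φ 6 = 6 := map_ofNat φ 6
  obtain ⟨κ, hκ⟩ : ∃ κ, p = 24 * κ + 19 := ⟨p / 24, by omega⟩
  have hp2 : p / 2 = 12 * κ + 9 := by omega
  have hκ' : (p - 19) / 24 = κ := by omega
  -- `2 ≠ 0`, `3 ≠ 0`
  have h2ne : (2 : k) ≠ 0 := by
    intro h
    have : ((2 : ℕ) : k) = 0 := by exact_mod_cast h
    rw [CharP.cast_eq_zero_iff k p] at this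
    have := Nat.le_of_dvd (by norm_num) this
    omega
  have h3ne : (3 : k) ≠ 0 := by
    intro h
    have : ((3 : ℕ) : k) = 0 := by exact_mod_cast h
    rw [CharP.cast_eq_zero_iff k p] at this
    have := Nat.le_of_dvd (by norm_num) this
    omega
  have z6 : z ^ 6 = -1 := by linear_combination (z ^ 2 + 1) * hz
  have z12 : z ^ 12 = 1 := by
    have : z ^ 12 = (z ^ 6) ^ 2 := by ring
    rw [this, z6]; ring
  have z11 : z ^ 11 = -z ^ 5 := by
    have : z ^ 11 = z ^ 6 * z ^ 5 := by ring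
    rw [this, z6]; ring
  have z5 : z ^ 5 = z ^ 3 - z := by linear_combination z * hz
  -- `h = √3 = 2 z - z^3`
  set h : k := z + z ^ 11 with hh
  have hh' : h = 2 * z - z ^ 3 := by rw [hh, z11, z5]; ring
  have hsq : h ^ 2 = 3 := by rw [hh']; linear_combination (z ^ 2 - 3) * hz
  have zp : z ^ p = -z := by
    have : z ^ p = (z ^ 12) ^ (2 * κ + 1) * (z ^ 6 * z) := by rw [hκ]; ring
    rw [this, z12, z6]; ring
  have hpw : h ^ p = -h := by
    rw [hh', sub_pow_char, mul_pow, ← pow_mul, mul_comm 3 p, pow_mul, zp]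
    have : (2 : k) ^ p = 2 := by
      have := map_pow φ (2 : ZMod p) p
      rw [ZMod.pow_card, hφ2'] at this
      exact this.symm
    rw [this]
    ring
  -- the square root of `-2`
  obtain ⟨s0, hs0⟩ := sqrt_neg_two (p := p) h24
  set s : k := φ s0 with hs
  have hs2 : s ^ 2 = -2 := by
    rw [hs, ← map_pow, hs0, map_neg, hφ2']
  have hsp : s ^ p = s := by rw [hs, ← map_pow, ZMod.pow_card]
  have hs_ne : s ≠ 0 := by
    intro h0
    rw [h0] at hs2
    apply h2ne
    linear_combination hs2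
  have hs1 : 1 + s ≠ 0 := by
    intro h0
    have : s = -1 := by linear_combination h0
    rw [this] at hs2
    apply h3ne
    linear_combination hs2
  -- `L = (2 (1+s))^((p-1)/2)`
  have hfer : ∀ a : k, a ^ p = a → a ≠ 0 → a ^ (p / 2) * a ^ (p / 2) = 1 := by
    intro a ha ha0
    have e : a ^ (p / 2) * a ^ (p / 2) * a = a := by
      rw [← pow_add, ← pow_succ]
      have : p / 2 + p / 2 + 1 = p := by omega
      rw [this, ha]
    exact mul_right_cancel₀ ha0 (by rw [e, one_mul])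
  have hφ2 : (2 : k) ^ p = 2 := by
    have := map_pow φ (2 : ZMod p) p
    rw [ZMod.pow_card, hφ2'] at this
    exact this.symm
  have h2half : (2 : k) ^ (p / 2) = -1 := by
    have := congrArg φ (leg_two (p := p) h24)
    rw [map_pow, map_neg, map_one, hφ2'] at this
    exact this
  set c : k := 2 * (1 + s) with hc
  have hcp : c ^ p = c := by
    rw [hc, mul_pow, add_pow_char, hφ2, one_pow, hsp]
  have hc0 : c ≠ 0 := mul_ne_zero h2ne hs1
  set L : k := c ^ (p / 2) with hL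
  have hLL : L * L = 1 := hfer c hcp hc0
  set γ : k := 1 + h with hγ
  have hγ0 : γ ≠ 0 := by
    intro h0
    have : h = -1 := by linear_combination h0
    rw [this] at hsq
    apply h2ne
    linear_combination -hsq
  have e1 : (γ + s) ^ 2 = c * γ := by
    rw [hγ, hc]; linear_combination hsq + hs2
  have e2 : (γ + s) ^ p = 1 - h + s := by
    rw [add_pow_char, hγ, add_pow_char, one_pow, hpw, hsp]; ring
  have e3 : (γ + s) ^ (p + 1) = s * c := by
    rw [pow_succ, e2, hγ, hc]; linear_combination -hsq - hs2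
  have hhalf : (p + 1) = 2 * (p / 2 + 1) := by omega
  have e4 : c ^ (p / 2 + 1) * γ ^ (p / 2 + 1) = s * c := by
    rw [← mul_pow, ← e1, ← pow_mul, ← hhalf, e3]
  have e5 : γ ^ (p / 2) * γ = s * L := by
    have : c ^ (p / 2 + 1) = L * c := by rw [pow_succ]
    rw [this, pow_succ γ] at e4
    have h1 : c * (L * (γ ^ (p / 2) * γ)) = c * s := by linear_combination e4
    have h2 := mul_left_cancel₀ hc0 h1
    linear_combination L * h2 - (γ ^ (p / 2) * γ) * hLL
  -- `(h-1)(h+1) = 2`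
  have e6 : (h - 1) * γ = 2 := by rw [hγ]; linear_combination hsq
  have e7 : (h - 1) ^ (p / 2) * γ ^ (p / 2) = -1 := by rw [← mul_pow, e6, h2half]
  have e8 : 2 * (h - 1) ^ (p / 2) = γ * s * L := by
    -- multiply e7 by γ * s * L
    have h1 : (h - 1) ^ (p / 2) * (s * L) = -γ := by
      rw [← e5]; linear_combination γ * e7
    have h2 : (h - 1) ^ (p / 2) * (s * L) * (s * L) = -γ * (s * L) := by rw [h1]
    have h3 : (h - 1) ^ (p / 2) * (s * L) * (s * L) = (h - 1) ^ (p / 2) * (s ^ 2 * (L * L)) := by ring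
    rw [h3, hs2, hLL] at h2
    linear_combination -h2
  -- `2 (z-1) = (1+i)(h-1) z^2`
  have e9 : 2 * (z - 1) = (1 + z ^ 3) * (h - 1) * z ^ 2 := by
    rw [hh']; linear_combination (z ^ 4 - z ^ 2 + 2 * z - 2) * hz
  have e10 : (z ^ 2) ^ (p / 2) = -1 := by
    rw [hp2, ← pow_mul]
    have : z ^ (2 * (12 * κ + 9)) = (z ^ 12) ^ (2 * κ + 1) * z ^ 6 := by ring
    rw [this, z12, z6]; ring
  have e11 : (z - 1) ^ (p / 2) = (1 + z ^ 3) ^ (p / 2) * (h - 1) ^ (p / 2) := by
    have h1 : (2 * (z - 1)) ^ (p / 2) = ((1 + z ^ 3) * (h - 1) * z ^ 2) ^ (p / 2) := by rw [e9]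
    rw [mul_pow, mul_pow, mul_pow, h2half, e10] at h1
    linear_combination -h1
  -- `(1+i)^((p-1)/2)`
  have e12 : (1 + z ^ 3) ^ (p / 2) = (-1) ^ κ * ((1 + z ^ 3) * 2 ^ (6 * κ + 4)) := by
    have h1 : (1 + z ^ 3) ^ 2 = 2 * z ^ 3 := by linear_combination z6
    have h2 : (1 + z ^ 3) ^ (p / 2) = ((1 + z ^ 3) ^ 2) ^ (6 * κ + 4) * (1 + z ^ 3) := by
      rw [hp2, ← pow_mul, ← pow_succ]; congr 1; ring
    rw [h2, h1, mul_pow]
    have h3 : (z ^ 3) ^ (6 * κ + 4) = (-1) ^ κ := by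
      have : (z ^ 3) ^ (6 * κ + 4) = ((z ^ 6) ^ 3) ^ κ * (z ^ 12) := by ring
      rw [this, z6, z12]; ring
    rw [h3]; ring
  have e13 : (2 : k) ^ (6 * κ + 4) * s = s ^ (p / 2) := by
    have h1 : (2 : k) ^ (6 * κ + 4) = (s ^ 2) ^ (6 * κ + 4) := by
      rw [hs2, neg_pow]
      have : ((-1 : k)) ^ (6 * κ + 4) = 1 := by
        rw [show 6 * κ + 4 = 2 * (3 * κ + 2) by ring, pow_mul]; norm_num
      rw [this, one_mul]
    rw [h1, ← pow_mul, ← pow_succ, hp2]
    congr 1
    ring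
  -- assembling: `2 (z-1)^((p-1)/2) = (-1)^κ (1+i) γ (s c)^((p-1)/2)`
  have e14 : 2 * (z - 1) ^ (p / 2) = (-1) ^ κ * ((1 + z ^ 3) * γ) * (s * c) ^ (p / 2) := by
    rw [e11, e12, mul_pow, ← e13, ← hL]
    linear_combination ((-1) ^ κ * ((1 + z ^ 3) * 2 ^ (6 * κ + 4))) * e8
  -- `t = i √3 = 2 z^2 - 1`
  set t : k := 2 * z ^ 2 - 1 with ht
  have ht2 : t ^ 2 = -3 := by rw [ht]; linear_combination 4 * hz
  have htp : t ^ p = t := by
    rw [ht, sub_pow_char, mul_pow, hφ2, one_pow, ← pow_mul, mul_comm 2 p, pow_mul, zp]; ring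
  have e15 : c * (s + t) = (1 + s + t) ^ 2 := by
    rw [hc]; linear_combination hs2 - ht2
  have hst_ne : s + t ≠ 0 := by
    intro h0
    have : t = -s := by linear_combination h0
    rw [this] at ht2
    have h1 : (1 : k) = 0 := by linear_combination ht2 - hs2
    exact one_ne_zero h1
  have h1st : 1 + s + t ≠ 0 := by
    intro h0
    rw [h0] at e15
    have := mul_ne_zero hc0 hst_ne
    apply this
    rw [e15]; ring
  have e16 : (1 + s + t) ^ (p / 2) * (1 + s + t) ^ (p / 2) = 1 := by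
    apply hfer _ _ h1st
    rw [add_pow_char, add_pow_char, one_pow, hsp, htp]
  have e17 : c ^ (p / 2) * (s + t) ^ (p / 2) = 1 := by
    rw [← mul_pow, e15, ← pow_mul, mul_comm 2, pow_mul, sq, e16]
  have e18 : (s + t) ^ (p / 2) = L := by
    rw [← hL] at e17
    linear_combination L * e17 - (s + t) ^ (p / 2) * hLL
  -- `r = s t`, `r^2 = 6`
  have e19 : (s * c) ^ (p / 2) = (s * t - 2) ^ (p / 2) := by
    rw [mul_pow, ← hL, ← e18, ← mul_pow]
    congr 1
    linear_combination hs2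
  have hr2 : (s * t) ^ 2 = 6 := by rw [mul_pow, hs2, ht2]; ring
  -- lift `r` to `ZMod p`
  obtain ⟨r, hr⟩ : ∃ r : ZMod p, r ^ 2 = 6 ∧ φ r = s * t := by
    -- find a square root of 6 in ZMod p : take t0 with t0^2 = -3
    have hrp : (s * t) ^ p = s * t := by rw [mul_pow, hsp, htp]
    have hsq6 : IsSquare (6 : ZMod p) := by
      have h6 : (6 : ZMod p) ^ (p / 2) = 1 := by
        apply φ.injective
        have h1 : φ 6 = (s * t) ^ 2 := by rw [hr2, hφ6']
        have h0 : s * t ≠ 0 := by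
          intro h0
          rw [h0] at hr2
          have : (2 : k) * 3 = 0 := by linear_combination -hr2
          rcases mul_eq_zero.mp this with h | h
          · exact h2ne h
          · exact h3ne h
        rw [map_pow, h1, map_one, ← pow_mul, mul_comm 2, pow_mul, sq, hfer _ hrp h0]
      exact (ZMod.euler_criterion p (by
        intro h0
        have h1 := congrArg φ h0
        rw [map_zero, hφ6', ← hr2] at h1
        have h3 := pow_eq_zero_iff (two_ne_zero) |>.mp h1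
        rw [h3] at hr2
        have : (2 : k) * 3 = 0 := by linear_combination -hr2
        rcases mul_eq_zero.mp this with h | h
        · exact h2ne h
        · exact h3ne h)).mpr h6
    obtain ⟨r, hr⟩ := hsq6
    have h1 : (φ r) ^ 2 = (s * t) ^ 2 := by
      rw [hr2, ← map_pow, sq, ← hr, hφ6']
    rcases sq_eq_sq_iff_eq_or_eq_neg.mp h1 with h | h
    · exact ⟨r, by rw [hr]; ring, h⟩
    · exact ⟨-r, by rw [hr]; ring, by rw [map_neg, h]; ring⟩
  have hfin := congrArg φ (sign_lemma h24 hxy r hr.1)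
  rw [map_pow, map_sub, hr.2, map_pow, map_neg, map_one] at hfin
  rw [hφ2'] at hfin
  rw [e14, e19, hfin, hκ', pow_add]
  ring

end Pool.Agent.Helper56.Fa5
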