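import Mathlib

/-! Products over quadratic residues and nonresidues. -/

namespace Pool.Agent.Helper56.Fa5

open Finset

variable {F : Type*} [Field F] {p : ℕ} [hpf : Fact p.Prime]

/-- nonzero quadratic residues -/
def QQ (p : ℕ) [Fact p.Prime] : Finset (ZMod p) := univ.filter (fun a => quadraticChar (ZMod p) a = 1)

/-- quadratic nonresidues -/
def NN (p : ℕ) [Fact p.Prime] : Finset (ZMod p) := univ.filter (fun a => quadraticChar (ZMod p) a = -1)

lemma mem_QQ {a : ZMod p} : a ∈ QQ p ↔ quadraticChar (ZMod p) a = 1 := by simp [QQ]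
lemma mem_NN {a : ZMod p} : a ∈ NN p ↔ quadraticChar (ZMod p) a = -1 := by simp [NN]

lemma ne_zero_of_char {a : ZMod p} {c : ℤ} (h : quadraticChar (ZMod p) a = c) (hc : c ≠ 0) : a ≠ 0 := by
  rintro rfl
  rw [quadraticChar_zero] at h
  exact hc h.symm

lemma prod_QQ_mul {M : Type*} [CommMonoid M] (f : ZMod p → M) {c : ZMod p}
    (hc : quadraticChar (ZMod p) c = -1) : ∏ a ∈ QQ p, f (c * a) = ∏ b ∈ NN p, f b := by
  have hc0 : c ≠ 0 := ne_zero_of_char hc (by norm_num)
  have hci : quadraticChar (ZMod p) c⁻¹ = -1 := by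
    have h1 : quadraticChar (ZMod p) (c * c⁻¹) = 1 := by rw [mul_inv_cancel₀ hc0, map_one]
    rw [map_mul, hc] at h1
    omega
  apply prod_bij' (fun a _ => c * a) (fun b _ => c⁻¹ * b)
  · intro a ha
    rw [mem_QQ] at ha
    rw [mem_NN, map_mul, hc, ha]; norm_num
  · intro b hb
    rw [mem_NN] at hb
    rw [mem_QQ, map_mul, hci, hb]; norm_num
  · intro a _; simp [hc0]
  · intro b _; simp [hc0]
  · intro a _; rfl

lemma prod_NN_mul {M : Type*} [CommMonoid M] (f : ZMod p → M) {c : ZMod p}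
    (hc : quadraticChar (ZMod p) c = -1) : ∏ a ∈ NN p, f (c * a) = ∏ b ∈ QQ p, f b := by
  have hc0 : c ≠ 0 := ne_zero_of_char hc (by norm_num)
  have hci : quadraticChar (ZMod p) c⁻¹ = -1 := by
    have h1 : quadraticChar (ZMod p) (c * c⁻¹) = 1 := by rw [mul_inv_cancel₀ hc0, map_one]
    rw [map_mul, hc] at h1
    omega
  apply prod_bij' (fun a _ => c * a) (fun b _ => c⁻¹ * b)
  · intro a ha
    rw [mem_NN] at ha
    rw [mem_QQ, map_mul, hc, ha]; norm_num
  · intro b hb
    rw [mem_QQ] at hb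
    rw [mem_NN, map_mul, hci, hb]; norm_num
  · intro a _; simp [hc0]
  · intro b _; simp [hc0]
  · intro a _; rfl

lemma sum_QQ_mul (f : ZMod p → ZMod p) {c : ZMod p}
    (hc : quadraticChar (ZMod p) c = 1) : ∑ a ∈ QQ p, f (c * a) = ∑ b ∈ QQ p, f b := by
  have hc0 : c ≠ 0 := ne_zero_of_char hc (by norm_num)
  have hci : quadraticChar (ZMod p) c⁻¹ = 1 := by
    have h1 : quadraticChar (ZMod p) (c * c⁻¹) = 1 := by rw [mul_inv_cancel₀ hc0, map_one]
    rw [map_mul, hc] at h1
    omega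
  apply sum_bij' (fun a _ => c * a) (fun b _ => c⁻¹ * b)
  · intro a ha
    rw [mem_QQ] at ha
    rw [mem_QQ, map_mul, hc, ha]; norm_num
  · intro b hb
    rw [mem_QQ] at hb
    rw [mem_QQ, map_mul, hci, hb]; norm_num
  · intro a _; simp [hc0]
  · intro b _; simp [hc0]
  · intro a _; rfl

/-- The squares of `1, …, (p-1)/2` are the nonzero quadratic residues, each once. -/
lemma prod_Icc_sq {M : Type*} [CommMonoid M] (hp2 : p ≠ 2) (f : ZMod p → M) :
    ∏ k ∈ Icc 1 ((p - 1) / 2), f ((k : ZMod p) ^ 2) = ∏ a ∈ QQ p, f a := by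
  have hp := hpf.out
  have hp3 : 3 ≤ p := by
    have := hp.two_le
    omega
  have hne : ∀ k ∈ Icc 1 ((p - 1) / 2), (k : ZMod p) ≠ 0 := by
    intro k hk h0
    rw [mem_Icc] at hk
    have := (ZMod.natCast_eq_zero_iff k p).mp h0
    have := Nat.le_of_dvd (by omega) this
    omega
  apply prod_bij (fun (k : ℕ) _ => (k : ZMod p) ^ 2)
  · intro k hk
    rw [mem_QQ, map_pow]
    have h1 := quadraticChar_sq_one' (hne k hk)
    rw [← map_pow]
    exact h1
  · intro k hk l hl hkl
    have hkl' : (k : ZMod p) ^ 2 = (l : ZMod p) ^ 2 := hkl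
    rw [mem_Icc] at hk hl
    rcases sq_eq_sq_iff_eq_or_eq_neg.mp hkl' with h | h
    · rw [ZMod.natCast_eq_natCast_iff'] at h
      rwa [Nat.mod_eq_of_lt (by omega), Nat.mod_eq_of_lt (by omega)] at h
    · have h1 : ((k + l : ℕ) : ZMod p) = 0 := by push_cast; rw [h]; ring
      have h2 := (ZMod.natCast_eq_zero_iff _ _).mp h1
      have := Nat.le_of_dvd (by omega) h2
      omega
  · intro a ha
    rw [mem_QQ] at ha
    have ha0 : a ≠ 0 := ne_zero_of_char ha (by norm_num)
    obtain ⟨b, hb⟩ := (quadraticChar_one_iff_isSquare ha0).mp ha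
    have hb0 : b ≠ 0 := by rintro rfl; simp at hb; exact ha0 hb
    refine ⟨b.valMinAbs.natAbs, ?_, ?_⟩
    · rw [mem_Icc]
      constructor
      · rw [Nat.one_le_iff_ne_zero, Int.natAbs_ne_zero]
        intro h
        apply hb0
        exact (ZMod.valMinAbs_eq_zero b).mp h
      · have h5 := ZMod.natAbs_valMinAbs_le b
        have h6 : p % 2 = 1 := hp.eq_two_or_odd.resolve_left hp2
        have h7 : (p - 1) / 2 = p / 2 := by omega
        rw [h7]
        exact h5
    · have h1 : (b.valMinAbs.natAbs : ZMod p) ^ 2 = b ^ 2 := by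
        have h2 : ((b.valMinAbs.natAbs : ℤ) : ZMod p) ^ 2 = ((b.valMinAbs : ℤ) : ZMod p) ^ 2 := by
          rw [← Int.cast_pow, ← Int.cast_pow, Int.natAbs_sq]
        rw [ZMod.coe_valMinAbs] at h2
        exact_mod_cast h2
      show (b.valMinAbs.natAbs : ZMod p) ^ 2 = a
      rw [h1, hb]; ring
  · intro k _; rfl

lemma card_QQ (hp2 : p ≠ 2) : (QQ p).card = (p - 1) / 2 := by
  have h := prod_Icc_sq (p := p) (M := Multiplicative ℕ) hp2 (fun _ => Multiplicative.ofAdd 1)
  rw [prod_const, prod_const, Nat.card_Icc, ← ofAdd_nsmul, ← ofAdd_nsmul] at h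
  have := Multiplicative.ofAdd.injective h
  simp at this
  omega

lemma card_NN (hp2 : p ≠ 2) {c : ZMod p} (hc : quadraticChar (ZMod p) c = -1) :
    (NN p).card = (p - 1) / 2 := by
  rw [← card_QQ hp2]
  have h := prod_QQ_mul (M := Multiplicative ℕ) (fun _ => Multiplicative.ofAdd 1) hc
  rw [prod_const, prod_const, ← ofAdd_nsmul, ← ofAdd_nsmul] at h
  have := Multiplicative.ofAdd.injective h
  simp at this
  omega

lemma sum_QQ (h2 : (2 : ZMod p) ≠ 0) (h3 : (3 : ZMod p) ≠ 0) : ∑ a ∈ QQ p, a = 0 := by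
  have h4 : quadraticChar (ZMod p) 4 = 1 := by
    have := quadraticChar_sq_one' h2
    rw [show (4 : ZMod p) = 2 ^ 2 by norm_num]
    exact this
  have h := sum_QQ_mul (fun a => a) h4
  rw [← mul_sum] at h
  have h5 : (3 : ZMod p) * ∑ a ∈ QQ p, a = 0 := by linear_combination h
  exact (mul_eq_zero.mp h5).resolve_left h3

lemma sum_NN (h2 : (2 : ZMod p) ≠ 0) (h3 : (3 : ZMod p) ≠ 0) {c : ZMod p}
    (hc : quadraticChar (ZMod p) c = -1) : ∑ a ∈ NN p, a = 0 := by
  have h := prod_QQ_mul (M := Multiplicative (ZMod p)) (fun a => Multiplicative.ofAdd a) hc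
  have h' : ∑ a ∈ QQ p, c * a = ∑ a ∈ NN p, a := by
    rw [← ofAdd_sum, ← ofAdd_sum] at h
    exact Multiplicative.ofAdd.injective h
  rw [← h', ← mul_sum, sum_QQ h2 h3, mul_zero]

section products

variable (e : AddChar (ZMod p) F)

lemma addChar_sum (s : Finset (ZMod p)) : ∏ a ∈ s, e a = e (∑ a ∈ s, a) := by
  classical
  induction s using Finset.induction_on with
  | empty => simp
  | insert a s ha ih => rw [prod_insert ha, sum_insert ha, AddChar.map_add_eq_mul, ih]

/-- product over residues -/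
def TQ (z : F) : F := ∏ a ∈ QQ p, (z - e a)
/-- product over nonresidues -/
def TN (z : F) : F := ∏ a ∈ NN p, (z - e a)

lemma TQ_inv (hp2 : p ≠ 2) (h2 : (2 : ZMod p) ≠ 0) (h3 : (3 : ZMod p) ≠ 0)
    (hm : quadraticChar (ZMod p) (-1) = -1) {w z : F} (hwz : w * z = 1) :
    TQ e w = (-w) ^ ((p - 1) / 2) * TN e z := by
  have h1 : ∀ a : ZMod p, w - e a = (-w) * e a * (z - e (-1 * a)) := by
    intro a
    have h4 : e a * e (-1 * a) = 1 := by
      rw [← AddChar.map_add_eq_mul]; simp
    linear_combination (e a) * hwz - w * h4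
  unfold TQ TN
  rw [prod_congr rfl (fun a _ => h1 a), prod_mul_distrib, prod_mul_distrib, prod_const, card_QQ hp2,
    prod_QQ_mul (fun b => z - e b) hm, addChar_sum, sum_QQ h2 h3,
    AddChar.map_zero_eq_one, mul_one]

lemma TN_inv (hp2 : p ≠ 2) (h2 : (2 : ZMod p) ≠ 0) (h3 : (3 : ZMod p) ≠ 0)
    (hm : quadraticChar (ZMod p) (-1) = -1) {w z : F} (hwz : w * z = 1) :
    TN e w = (-w) ^ ((p - 1) / 2) * TQ e z := by
  have h1 : ∀ a : ZMod p, w - e a = (-w) * e a * (z - e (-1 * a)) := by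
    intro a
    have h4 : e a * e (-1 * a) = 1 := by
      rw [← AddChar.map_add_eq_mul]; simp
    linear_combination (e a) * hwz - w * h4
  unfold TQ TN
  rw [prod_congr rfl (fun a _ => h1 a), prod_mul_distrib, prod_mul_distrib, prod_const, card_NN hp2 hm,
    prod_NN_mul (fun b => z - e b) hm, addChar_sum, sum_NN h2 h3 hm,
    AddChar.map_zero_eq_one, mul_one]

lemma TQ_two (hp2 : p ≠ 2) (hc : quadraticChar (ZMod p) 2 = -1) (z : F) :
    TQ e z * TQ e (-z) = (-1) ^ ((p - 1) / 2) * TN e (z ^ 2) := by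
  unfold TQ TN
  rw [← prod_QQ_mul (fun b => z ^ 2 - e b) hc, ← prod_mul_distrib]
  have h1 : ∀ a : ZMod p, (z - e a) * (-z - e a) = (-1) * (z ^ 2 - e (2 * a)) := by
    intro a
    rw [two_mul, AddChar.map_add_eq_mul]; ring
  rw [prod_congr rfl (fun a _ => h1 a), prod_mul_distrib, prod_const, card_QQ hp2]

lemma TN_two (hp2 : p ≠ 2) (hc : quadraticChar (ZMod p) 2 = -1) (z : F) :
    TN e z * TN e (-z) = (-1) ^ ((p - 1) / 2) * TQ e (z ^ 2) := by
  unfold TQ TN
  rw [← prod_NN_mul (fun b => z ^ 2 - e b) hc, ← prod_mul_distrib]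
  have h1 : ∀ a : ZMod p, (z - e a) * (-z - e a) = (-1) * (z ^ 2 - e (2 * a)) := by
    intro a
    rw [two_mul, AddChar.map_add_eq_mul]; ring
  rw [prod_congr rfl (fun a _ => h1 a), prod_mul_distrib, prod_const, card_NN hp2 hc]

lemma TQ_three (hc : quadraticChar (ZMod p) 3 = -1) (z w : F) (hw : w ^ 2 + w + 1 = 0) :
    TQ e z * TQ e (z * w) * TQ e (z * w ^ 2) = TN e (z ^ 3) := by
  unfold TQ TN
  rw [← prod_QQ_mul (fun b => z ^ 3 - e b) hc, ← prod_mul_distrib, ← prod_mul_distrib]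
  apply prod_congr rfl
  intro a _
  have h1 : e (3 * a) = e a ^ 3 := by
    rw [show (3 : ZMod p) * a = a + a + a by ring, AddChar.map_add_eq_mul, AddChar.map_add_eq_mul]
    ring
  rw [h1]
  have hw3 : w ^ 3 = 1 := by linear_combination (w - 1) * hw
  linear_combination (z ^ 3) * hw3 + (z * e a ^ 2 - z ^ 2 * e a * w) * hw

lemma prod_all {ζ : F} (hζ : IsPrimitiveRoot ζ p) (z : F) :
    ∏ a : ZMod p, (z - (AddChar.zmodChar p hζ.pow_eq_one) a) = z ^ p - 1 := by
  classical
  have hp := hpf.out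
  set e := AddChar.zmodChar p hζ.pow_eq_one with he
  have hinj : Function.Injective e := by
    intro a b hab
    rw [he, AddChar.zmodChar_apply, AddChar.zmodChar_apply] at hab
    have := hζ.pow_inj (ZMod.val_lt a) (ZMod.val_lt b) hab
    exact ZMod.val_injective p this
  have himg : (univ : Finset (ZMod p)).image e = Polynomial.nthRootsFinset p (1 : F) := by
    apply eq_of_subset_of_card_le
    · intro x hx
      rw [mem_image] at hx
      obtain ⟨a, _, rfl⟩ := hx
      rw [Polynomial.mem_nthRootsFinset hp.pos, he, AddChar.zmodChar_apply, ← pow_mul, mul_comm,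
        pow_mul, hζ.pow_eq_one, one_pow]
    · rw [card_image_of_injective _ hinj, card_univ, ZMod.card, hζ.card_nthRootsFinset]
  have h := Polynomial.X_pow_sub_one_eq_prod hp.pos hζ
  rw [← himg, prod_image (fun a _ b _ h => hinj h)] at h
  have h2 := congrArg (Polynomial.eval z) h
  rw [Polynomial.eval_prod] at h2
  simp only [Polynomial.eval_sub, Polynomial.eval_pow, Polynomial.eval_X, Polynomial.eval_one,
    Polynomial.eval_C] at h2
  exact h2.symm

lemma prod_split {M : Type*} [CommMonoid M] (f : ZMod p → M) :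
    ∏ a : ZMod p, f a = f 0 * (∏ a ∈ QQ p, f a) * ∏ a ∈ NN p, f a := by
  have h1 : (univ : Finset (ZMod p)) = {0} ∪ QQ p ∪ NN p := by
    ext a
    simp only [mem_univ, mem_union, mem_singleton, mem_QQ, mem_NN, true_iff]
    by_cases h0 : a = 0
    · left; left; exact h0
    · rcases quadraticChar_dichotomy h0 with h | h
      · left; right; exact h
      · right; exact h
  rw [h1, prod_union, prod_union, prod_singleton]
  · rw [disjoint_singleton_left, mem_QQ, quadraticChar_zero]; norm_num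
  · rw [disjoint_union_left, disjoint_singleton_left, mem_NN, quadraticChar_zero]
    refine ⟨by norm_num, ?_⟩
    rw [disjoint_left]
    intro a ha hb
    rw [mem_QQ] at ha
    rw [mem_NN, ha] at hb
    norm_num at hb

end products

end Pool.Agent.Helper56.Fa5
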