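import Mathlib
import Pool.Agent.Helper56.Fa5.Prod
import Pool.Agent.Helper56.Fa5.Charp

/-! The multiplicative relations among the values at twelfth roots of unity. -/

namespace Pool.Agent.Helper56.Fa5

open Finset

variable {F : Type*} [Field F] {p : ℕ} [hpf : Fact p.Prime]

lemma char_two (h24 : p % 24 = 19) : quadraticChar (ZMod p) 2 = -1 := by
  have h1 : legendreSym p 2 = -1 := by
    rw [legendreSym.at_two (by omega), ZMod.χ₈_nat_eq_if_mod_eight]
    rw [if_neg (by omega), if_neg (by omega)]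
  unfold legendreSym at h1
  simpa using h1

lemma char_neg_one (h24 : p % 24 = 19) : quadraticChar (ZMod p) (-1) = -1 := by
  have h1 : legendreSym p (-1) = -1 := by
    rw [legendreSym.at_neg_one (by omega), ZMod.χ₄_nat_three_mod_four (by omega)]
  unfold legendreSym at h1
  simpa using h1

open scoped NumberTheorySymbols in
lemma char_three (h24 : p % 24 = 19) : quadraticChar (ZMod p) 3 = -1 := by
  have h1 : J(3 | p) = -1 := by
    have h2 := recip (p := p) (m := 3) (by omega) (by decide)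
    have h3 : J(-(p : ℤ) | 3) = J(-1 | 3) := by
      apply jacobiSym.mod_left'
      push_cast
      omega
    have h4 : J(-1 | 3) = -1 := by norm_num
    rw [h3, h4] at h2
    exact_mod_cast h2
  rw [← jacobiSym.legendreSym.to_jacobiSym] at h1
  unfold legendreSym at h1
  simpa using h1

/-- The four values in terms of one of them. -/
theorem relations (h24 : p % 24 = 19) {ζ : F} (hζ : IsPrimitiveRoot ζ p) (ξ : F)
    (hξ : ξ ^ 4 - ξ ^ 2 + 1 = 0) (hξ12 : IsPrimitiveRoot ξ 12) :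
    (ξ - 1) * TQ (AddChar.zmodChar p hζ.pow_eq_one) ξ ^ 2 = -(1 + ξ) ∧
    TQ (AddChar.zmodChar p hζ.pow_eq_one) ξ * TQ (AddChar.zmodChar p hζ.pow_eq_one) (ξ ^ 5) = - ξ ^ 3 ∧
    TQ (AddChar.zmodChar p hζ.pow_eq_one) (ξ ^ 11) =
      - ξ ^ 3 * TQ (AddChar.zmodChar p hζ.pow_eq_one) ξ ∧
    TQ (AddChar.zmodChar p hζ.pow_eq_one) (ξ ^ 7) =
      - ξ ^ 3 * TQ (AddChar.zmodChar p hζ.pow_eq_one) (ξ ^ 5) := by
  have hp := hpf.out
  have hp2 : p ≠ 2 := by omega
  obtain ⟨κ, hκ⟩ : ∃ κ, p = 24 * κ + 19 := ⟨p / 24, by omega⟩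
  have hhalf : (p - 1) / 2 = 12 * κ + 9 := by omega
  have h2 : (2 : ZMod p) ≠ 0 := ne_zero_of_char (char_two h24) (by norm_num)
  have h3 : (3 : ZMod p) ≠ 0 := ne_zero_of_char (char_three h24) (by norm_num)
  set e := AddChar.zmodChar p hζ.pow_eq_one with he
  have x6 : ξ ^ 6 = -1 := by linear_combination (ξ ^ 2 + 1) * hξ
  have x12 : ξ ^ 12 = 1 := by
    have : ξ ^ 12 = (ξ ^ 6) ^ 2 := by ring
    rw [this, x6]; ring
  have hξ0 : ξ ≠ 0 := by
    rintro rfl
    norm_num at hξ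
  -- values of powers: (-w)^((p-1)/2) = -w^9 for w = ξ^j
  have hpow : ∀ j : ℕ, (-(ξ ^ j)) ^ ((p - 1) / 2) = -(ξ ^ (9 * j)) := by
    intro j
    rw [hhalf]
    have h1 : (-(ξ ^ j)) ^ (12 * κ + 9) = (((-1 : F)) ^ (12 * κ + 9)) * ((ξ ^ 12) ^ (κ * j) * ξ ^ (9 * j)) := by
      rw [neg_pow]
      congr 1
      rw [← pow_mul, ← pow_mul, ← pow_add]
      congr 1
      ring
    rw [h1, x12, one_pow, one_mul]
    have : ((-1 : F)) ^ (12 * κ + 9) = -1 := by
      rw [show 12 * κ + 9 = 2 * (6 * κ + 4) + 1 by ring, pow_succ, pow_mul]; norm_num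
    rw [this]; ring
  have hneg : ((-1 : F)) ^ ((p - 1) / 2) = -1 := by
    rw [hhalf, show 12 * κ + 9 = 2 * (6 * κ + 4) + 1 by ring, pow_succ, pow_mul]; norm_num
  have inv1 : ∀ i j : ℕ, i + j = 12 ∨ i + j = 24 → TQ e (ξ ^ i) = -(ξ ^ (9 * i)) * TN e (ξ ^ j) := by
    intro i j hij
    rw [← hpow i]
    apply TQ_inv e hp2 h2 h3 (char_neg_one h24)
    rw [← pow_add]
    rcases hij with h | h
    · rw [h, x12]
    · rw [h, show 24 = 12 * 2 by norm_num, pow_mul, x12, one_pow]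
  have inv2 : ∀ i j : ℕ, i + j = 12 ∨ i + j = 24 → TN e (ξ ^ i) = -(ξ ^ (9 * i)) * TQ e (ξ ^ j) := by
    intro i j hij
    rw [← hpow i]
    apply TN_inv e hp2 h2 h3 (char_neg_one h24)
    rw [← pow_add]
    rcases hij with h | h
    · rw [h, x12]
    · rw [h, show 24 = 12 * 2 by norm_num, pow_mul, x12, one_pow]
  have r2 : ∀ z : F, TQ e z * TQ e (-z) = - TN e (z ^ 2) := by
    intro z
    rw [TQ_two e hp2 (char_two h24), hneg]; ring
  have r2' : ∀ z : F, TN e z * TN e (-z) = - TQ e (z ^ 2) := by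
    intro z
    rw [TN_two e hp2 (char_two h24), hneg]; ring
  -- full product
  have hfull : ∀ z : F, (z - 1) * TQ e z * TN e z = z ^ p - 1 := by
    intro z
    rw [← prod_all hζ z, prod_split, ← he, AddChar.map_zero_eq_one]
    rfl
  have hxp : ∀ j : ℕ, (ξ ^ j) ^ p = ξ ^ (7 * j) := by
    intro j
    rw [hκ, ← pow_mul]
    have : ξ ^ (j * (24 * κ + 19)) = (ξ ^ 12) ^ (2 * κ * j + j) * ξ ^ (7 * j) := by
      rw [← pow_mul, ← pow_add]; congr 1; ring
    rw [this, x12, one_pow, one_mul]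
  -- nonvanishing of the factors at ξ^j for j = 1,3,4,5
  have hne : ∀ j : ℕ, ξ ^ (7 * j) ≠ 1 → TQ e (ξ ^ j) ≠ 0 ∧ TN e (ξ ^ j) ≠ 0 := by
    intro j hj
    have h := hfull (ξ ^ j)
    rw [hxp] at h
    constructor
    · intro h0
      rw [h0] at h
      apply hj
      linear_combination -h
    · intro h0
      rw [h0] at h
      apply hj
      linear_combination -h
  -- ξ is a primitive twelfth root of unity: needed inequalities
  have y1 : ξ ^ (7 * 1) ≠ 1 := hξ12.pow_ne_one_of_pos_of_lt (by norm_num) (by norm_num)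
  have red : ∀ a b : ℕ, a = b + 12 ∨ a = b + 24 ∨ a = b + 60 ∨ a = b + 72 ∨ a = b + 96 → ξ ^ a = ξ ^ b := by
    intro a b hab
    have h1 : ∀ m : ℕ, ξ ^ (b + 12 * m) = ξ ^ b := by
      intro m
      rw [pow_add, pow_mul, x12, one_pow, mul_one]
    rcases hab with h | h | h | h | h <;> rw [h]
    · exact h1 1
    · exact h1 2
    · exact h1 5
    · exact h1 6
    · exact h1 8
  have y3 : ξ ^ (7 * 3) ≠ 1 := by
    rw [red (7 * 3) 9 (by norm_num)]
    exact hξ12.pow_ne_one_of_pos_of_lt (by norm_num) (by norm_num)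
  have y4 : ξ ^ (7 * 4) ≠ 1 := by
    rw [red (7 * 4) 4 (by norm_num)]
    exact hξ12.pow_ne_one_of_pos_of_lt (by norm_num) (by norm_num)
  have y5 : ξ ^ (7 * 5) ≠ 1 := by
    rw [red (7 * 5) 11 (by norm_num)]
    exact hξ12.pow_ne_one_of_pos_of_lt (by norm_num) (by norm_num)
  -- (i)
  have a10 : TQ e (ξ ^ 10) = 1 := by
    have h1 := r2 (ξ ^ 4)
    have h2 := inv2 8 4 (by norm_num)
    have h3 : -(ξ ^ 4) = ξ ^ 10 := by linear_combination (-ξ ^ 4) * x6
    have h4 : (ξ ^ 4) ^ 2 = ξ ^ 8 := by ring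
    have h5 : ξ ^ (9 * 8) = 1 := by
      have := red 72 0 (by norm_num); simpa using this
    rw [h3, h4, h2, h5] at h1
    apply mul_left_cancel₀ (hne 4 y4).1
    linear_combination h1
  have b10 : TN e (ξ ^ 10) = 1 := by
    have h1 := r2' (ξ ^ 4)
    have h2 := inv1 8 4 (by norm_num)
    have h3 : -(ξ ^ 4) = ξ ^ 10 := by linear_combination (-ξ ^ 4) * x6
    have h4 : (ξ ^ 4) ^ 2 = ξ ^ 8 := by ring
    have h5 : ξ ^ (9 * 8) = 1 := by
      have := red 72 0 (by norm_num); simpa using this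
    rw [h3, h4, h2, h5] at h1
    apply mul_left_cancel₀ (hne 4 y4).2
    linear_combination h1
  have b2 : TN e (ξ ^ 2) = 1 := by
    have h1 := inv2 2 10 (by norm_num)
    rw [a10, red (9 * 2) 6 (by norm_num), x6] at h1
    rw [h1]; ring
  -- (ii)
  have q7 : TQ e (ξ ^ 7) = - ξ ^ 3 * TN e (ξ ^ 5) := by
    rw [inv1 7 5 (by norm_num), red (9 * 7) 3 (by norm_num)]
  have e2 : TQ e ξ * ξ ^ 3 * TN e (ξ ^ 5) = 1 := by
    have h1 := r2 ξ
    have h3 : -ξ = ξ ^ 7 := by linear_combination (-ξ) * x6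
    rw [h3, q7, b2] at h1
    linear_combination -h1
  -- (iii)
  have e3 : TQ e ξ * ξ ^ 3 * TQ e (ξ ^ 5) = 1 := by
    have h1 := TQ_three e (char_three h24) ξ (ξ ^ 4) (by linear_combination (ξ ^ 4 + ξ ^ 2 + 1) * hξ)
    have h2 := inv1 9 3 (by norm_num)
    rw [red (9 * 9) 9 (by norm_num)] at h2
    have h3 : ξ * ξ ^ 4 = ξ ^ 5 := by ring
    have h4 : ξ * (ξ ^ 4) ^ 2 = ξ ^ 9 := by ring
    have h5 : ξ ^ 9 = -ξ ^ 3 := by linear_combination (ξ ^ 3) * x6
    rw [h3, h4, h2, h5] at h1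
    apply mul_right_cancel₀ (hne 3 y3).2
    linear_combination h1
  have hA : TQ e ξ ≠ 0 := by
    have := (hne 1 y1).1
    rwa [pow_one] at this
  have x30 : ξ ^ 3 ≠ 0 := pow_ne_zero _ hξ0
  have a5b5 : TN e (ξ ^ 5) = TQ e (ξ ^ 5) := by
    apply mul_left_cancel₀ (mul_ne_zero hA x30)
    rw [e2, e3]
  -- (iv)
  have q11 : TQ e (ξ ^ 11) = - ξ ^ 3 * TN e ξ := by
    have h1 := inv1 11 1 (by norm_num)
    rw [red (9 * 11) 3 (by norm_num), pow_one] at h1
    exact h1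
  have e4 : TQ e (ξ ^ 5) * ξ ^ 3 * TN e ξ = 1 := by
    have h1 := r2 (ξ ^ 5)
    have h3 : -ξ ^ 5 = ξ ^ 11 := by linear_combination (-ξ ^ 5) * x6
    have h4 : (ξ ^ 5) ^ 2 = ξ ^ 10 := by ring
    rw [h3, q11, h4, b10] at h1
    linear_combination -h1
  have a1b1 : TN e ξ = TQ e ξ := by
    apply mul_left_cancel₀ (mul_ne_zero (hne 5 y5).1 x30)
    rw [e4, ← e3]; ring
  refine ⟨?_, ?_, ?_, ?_⟩
  · have h1 := hfull ξ
    have h2 := hxp 1
    rw [pow_one] at h2
    rw [h2, a1b1] at h1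
    linear_combination h1 + ξ * x6
  · apply mul_left_cancel₀ x30
    linear_combination e3 + x6
  · rw [q11, a1b1]
  · rw [q7, a5b5]

end Pool.Agent.Helper56.Fa5
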