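import Mathlib
import Pool.Agent.Helper56.Fa5.Rel

/-! Reduction modulo a prime above `p` and determination of the sign. -/

namespace Pool.Agent.Helper56.Fa5

open Finset

/-- The ring of algebraic integers in `ℂ`. -/
abbrev AI : Subalgebra ℤ ℂ := integralClosure ℤ ℂ

lemma exists_maximal_ideal (p : ℕ) (hp : p.Prime) :
    ∃ M : Ideal AI, M.IsMaximal ∧ ((p : ℕ) : AI) ∈ M := by
  have hne : Ideal.span {((p : ℕ) : AI)} ≠ ⊤ := by
    rw [Ne, Ideal.span_singleton_eq_top, isUnit_iff_exists_inv]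
    rintro ⟨b, hb⟩
    have h1 : ((p : ℕ) : ℂ) * (b : ℂ) = 1 := by
      have := congrArg (Subtype.val) hb
      simpa using this
    have hp0 : ((p : ℕ) : ℂ) ≠ 0 := by exact_mod_cast hp.ne_zero
    have h2 : (b : ℂ) = algebraMap ℚ ℂ ((p : ℚ)⁻¹) := by
      have : (b : ℂ) = ((p : ℕ) : ℂ)⁻¹ := by
        field_simp
        linear_combination h1
      rw [this]
      simp
    have h3 : IsIntegral ℤ (b : ℂ) := b.2
    rw [h2] at h3
    have h4 : IsIntegral ℤ ((p : ℚ)⁻¹) :=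
      (isIntegral_algebraMap_iff (FaithfulSMul.algebraMap_injective ℚ ℂ)).mp h3
    obtain ⟨n, hn⟩ := IsIntegrallyClosed.isIntegral_iff.mp h4
    have hpq : (p : ℚ) ≠ 0 := by exact_mod_cast hp.ne_zero
    have h5 : (n : ℚ) * p = 1 := by
      have : (n : ℚ) = (p : ℚ)⁻¹ := by simpa using hn
      rw [this]
      field_simp
    have h6 : n * (p : ℤ) = 1 := by exact_mod_cast h5
    have h7 : IsUnit (p : ℤ) := IsUnit.of_mul_eq_one_right _ h6
    rw [Int.isUnit_iff] at h7
    have := hp.two_le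
    omega
  obtain ⟨M, hM, hle⟩ := Ideal.exists_le_maximal _ hne
  exact ⟨M, hM, hle (Ideal.subset_span rfl)⟩

theorem sign_transfer {p : ℕ} [hpf : Fact p.Prime] (h24 : p % 24 = 19) {x y : ℤ}
    (hxy : (p : ℤ) = (4 * x) ^ 2 + 3 * y ^ 2) {ζ ξ : ℂ} (hζ : ζ ^ p = 1)
    (hξ : ξ ^ 4 - ξ ^ 2 + 1 = 0)
    (hsq : (2 * ∏ k ∈ Icc 1 ((p - 1) / 2), (ξ - ζ ^ (k ^ 2))) ^ 2 =
      ((1 + ξ ^ 3) * (1 + (ξ + ξ ^ 11))) ^ 2) :
    2 * ∏ k ∈ Icc 1 ((p - 1) / 2), (ξ - ζ ^ (k ^ 2)) =
      (-1) ^ ((p - 19) / 24 + x.natAbs) * ((1 + ξ ^ 3) * (1 + (ξ + ξ ^ 11))) := by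
  have hp := hpf.out
  have hζi : IsIntegral ℤ ζ := ⟨Polynomial.X ^ p - 1, Polynomial.monic_X_pow_sub_C 1 hp.ne_zero, by
    simp [hζ]⟩
  have hξ12 : ξ ^ 12 = 1 := by linear_combination (ξ ^ 8 + ξ ^ 6 - ξ ^ 2 - 1) * hξ
  have hξi : IsIntegral ℤ ξ := ⟨Polynomial.X ^ 12 - 1, Polynomial.monic_X_pow_sub_C 1 (by norm_num), by
    simp [hξ12]⟩
  set z' : AI := ⟨ζ, hζi⟩ with hz'
  set x' : AI := ⟨ξ, hξi⟩ with hx'
  obtain ⟨M, hM, hpM⟩ := exists_maximal_ideal p hp
  let _ : Field (AI ⧸ M) := Ideal.Quotient.field M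
  let φ : AI →+* (AI ⧸ M) := Ideal.Quotient.mk M
  have hφp : φ ((p : ℕ) : AI) = 0 := Ideal.Quotient.eq_zero_iff_mem.mpr hpM
  have : CharP (AI ⧸ M) p := by
    rw [CharP.charP_iff_prime_eq_zero hp]
    rw [map_natCast] at hφp
    exact hφp
  have : ExpChar (AI ⧸ M) p := ExpChar.prime hp
  have hz1 : φ z' = 1 := by
    have h1 : z' ^ p = 1 := by
      apply Subtype.ext
      simp [hz', hζ]
    have h2 : (φ z' - 1) ^ p = 0 := by
      rw [sub_pow_char, ← map_pow, h1, map_one, one_pow, sub_self]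
    have h3 := pow_eq_zero_iff hp.ne_zero |>.mp h2
    linear_combination h3
  have hx1 : (φ x') ^ 4 - (φ x') ^ 2 + 1 = 0 := by
    have h1 : x' ^ 4 - x' ^ 2 + 1 = 0 := by
      apply Subtype.ext
      simpa [hx'] using hξ
    have := congrArg φ h1
    simpa using this
  set T : AI := ∏ k ∈ Icc 1 ((p - 1) / 2), (x' - z' ^ (k ^ 2)) with hT
  set V : AI := (1 + x' ^ 3) * (1 + (x' + x' ^ 11)) with hV
  have hTc : (T : ℂ) = ∏ k ∈ Icc 1 ((p - 1) / 2), (ξ - ζ ^ (k ^ 2)) := by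
    rw [hT]
    push_cast
    rfl
  have hVc : (V : ℂ) = (1 + ξ ^ 3) * (1 + (ξ + ξ ^ 11)) := by
    rw [hV]
    push_cast
    rfl
  rw [← hTc, ← hVc] at hsq ⊢
  have hφT : φ T = (φ x' - 1) ^ (p / 2) := by
    rw [hT, map_prod]
    have h1 : ∀ k ∈ Icc 1 ((p - 1) / 2), φ (x' - z' ^ (k ^ 2)) = φ x' - 1 := by
      intro k _
      rw [map_sub, map_pow, hz1, one_pow]
    rw [prod_congr rfl h1, prod_const, Nat.card_Icc]
    congr 1
    omega
  have hval := char_p_value (k := AI ⧸ M) h24 hxy (φ x') hx1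
  have hφV : φ V = (1 + (φ x') ^ 3) * (1 + (φ x' + (φ x') ^ 11)) := by
    rw [hV]
    simp only [map_mul, map_add, map_one, map_pow]
  rw [← hφV, ← hφT] at hval
  set n := (p - 19) / 24 + x.natAbs with hn
  have h2ne : (2 : AI ⧸ M) ≠ 0 := by
    intro h
    have : ((2 : ℕ) : AI ⧸ M) = 0 := by exact_mod_cast h
    rw [CharP.cast_eq_zero_iff (AI ⧸ M) p] at this
    have := Nat.le_of_dvd (by norm_num) this
    omega
  have hT0 : φ T ≠ 0 := by
    rw [hφT]
    apply pow_ne_zero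
    intro h0
    have : φ x' = 1 := by linear_combination h0
    rw [this] at hx1
    norm_num at hx1
  have hV0 : φ V ≠ 0 := by
    intro h0
    rw [h0, mul_zero] at hval
    exact (mul_ne_zero h2ne hT0) hval
  have hφ2 : φ 2 = 2 := map_ofNat φ 2
  rcases neg_one_pow_eq_or ℂ n with hs | hs
  · rw [hs, one_mul]
    rcases sq_eq_sq_iff_eq_or_eq_neg.mp hsq with h | h
    · exact h
    · exfalso
      have h1 : 2 * T = -V := by
        apply Subtype.ext
        push_cast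
        exact h
      have h2 := congrArg φ h1
      rw [map_mul, map_neg, hφ2, hval] at h2
      have hs' : ((-1 : AI ⧸ M)) ^ n = 1 := by
        have he : Even n := by
          by_contra ho
          rw [Nat.not_even_iff_odd] at ho
          rw [ho.neg_one_pow] at hs
          norm_num at hs
        exact he.neg_one_pow
      rw [hs', one_mul] at h2
      have h3 : 2 * φ V = 0 := by linear_combination h2
      exact (mul_ne_zero h2ne hV0) h3
  · rw [hs]
    rcases sq_eq_sq_iff_eq_or_eq_neg.mp hsq with h | h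
    · exfalso
      have h1 : 2 * T = V := by
        apply Subtype.ext
        push_cast
        exact h
      have h2 := congrArg φ h1
      rw [map_mul, hφ2, hval] at h2
      have hs' : ((-1 : AI ⧸ M)) ^ n = -1 := by
        have he : Odd n := by
          by_contra ho
          rw [Nat.not_odd_iff_even] at ho
          rw [ho.neg_one_pow] at hs
          norm_num at hs
        exact he.neg_one_pow
      rw [hs'] at h2
      have h3 : 2 * φ V = 0 := by linear_combination -h2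
      exact (mul_ne_zero h2ne hV0) h3
    · rw [h]; ring

end Pool.Agent.Helper56.Fa5
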